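import Pool.Agent.Run7.h325.RSI.Stm

/-!
# Piece MAIN2 of helper325's project on MP_6fecbe_an (S05002)
-/

set_option autoImplicit false

namespace Pool.Agent.Run7.h714.RSI

open MeasureTheory Filter Topology Metric
open Pool.Agent.Run7.h325.RSI

/-- the bound of FN -/
noncomputable def NN (m : ℕ) : ℝ :=
  16 * (4 : ℝ) ^ (m ^ 4) * (Real.exp 12 * (6 * Real.pi * r0 m ^ 2 * (m : ℝ) ^ 4))

theorem NN_pos (m : ℕ) (hm : 1 ≤ m) : 0 < NN m := by
  have h1 : (0 : ℝ) < m := by exact_mod_cast hm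
  have h2 : 0 < r0 m := by unfold r0; positivity
  have h3 := Real.pi_pos
  unfold NN
  positivity

/-- the `A_2` condition with averages -/
theorem avg_bd (hA2 : S_A2) (m : ℕ) (hm : 1 ≤ m) (x : E2) (r : ℝ) (hr : 0 < r) :
    (⨍ y in ball x r, wt m y) * (⨍ y in ball x r, (wt m y)⁻¹) ≤ 25 * (m : ℝ) ^ 4 := by
  obtain ⟨-, -, h3⟩ := hA2 m hm
  obtain ⟨-, -, h6⟩ := h3 x r hr
  have hv : 0 < (volume (ball x r)).toReal :=
    ENNReal.toReal_pos (measure_ball_pos volume x hr).ne' measure_ball_lt_top.ne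
  rw [setAverage_eq, setAverage_eq, smul_eq_mul, smul_eq_mul]
  have h7 : volume.real (ball x r) = (volume (ball x r)).toReal := rfl
  rw [h7]
  set v := (volume (ball x r)).toReal with hvd
  have h8 : v⁻¹ * (∫ y in ball x r, wt m y) * (v⁻¹ * ∫ y in ball x r, (wt m y)⁻¹)
      = ((∫ y in ball x r, wt m y) * ∫ y in ball x r, (wt m y)⁻¹) / v ^ 2 := by
    field_simp
  rw [h8, div_le_iff₀ (by positivity)]
  exact h6

theorem loc_int (f : E2 → ℝ) (h : ∀ (x : E2) (r : ℝ), 0 < r → IntegrableOn f (ball x r)) :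
    LocallyIntegrable f volume := fun x =>
  ⟨ball x 1, ball_mem_nhds x one_pos, h x 1 one_pos⟩

theorem t_MAIN2 (hBUMP : S_BUMP) (hA2 : S_A2) (hFN : S_FN) (hOMG : S_OMG) (hFFP : S_FFP)
    (hPSI : S_PSI) (hBMO : S_BMO) (hPV2 : S_PV2) (hLAM : S_LAM) (hLLOW : S_LLOW) (hSW : S_SW)
    (hCS : S_CS) : S_MAIN2 := by
  intro H
  have hm1 : ∀ n : ℕ, 1 ≤ n + 1 := fun n => Nat.le_add_left 1 n
  choose φ hφ using fun n : ℕ => hBUMP (n + 1) (hm1 n)
  choose Λ hΛ using fun n : ℕ => hLAM (n + 1) (φ n) (hm1 n) (hφ n)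
  set W : ℕ → ℝ := fun n => ∫ x in SS (n + 1), wt (n + 1) x with hW
  have hWlow : ∀ n, Real.exp (-24) / 12 * NN (n + 1) ≤ W n := by
    intro n
    refine le_trans (le_of_eq ?_) (hSW (n + 1) (hm1 n)).2
    unfold NN
    have h1 : Real.exp (-24) * Real.exp 12 = Real.exp (-12) := by
      rw [← Real.exp_add]
      norm_num
    rw [← h1]
    ring
  have hWpos : ∀ n, 0 < W n := fun n =>
    lt_of_lt_of_le (mul_pos (by positivity) (NN_pos _ (hm1 n))) (hWlow n)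
  -- the bound for each `F`
  have key : ∀ F : BoundedContinuousFunction E2 ℝ, ∃ C : ℝ, 0 ≤ C ∧ ∀ n : ℕ,
      |Lam (n + 1) (φ n) F| ≤
        Real.sqrt (C * (25 * ((n + 1 : ℕ) : ℝ) ^ 4) ^ 4 * NN (n + 1)) * Real.sqrt (W n) := by
    intro F
    have hFm : Measurable F := F.continuous.measurable
    have hFb : ∃ M, ∀ u, |F u| ≤ M := ⟨‖F‖, fun u => F.norm_coe_le_norm u⟩
    have hΩm : Measurable fun y : E2 => F y - mean F := hFm.sub_const _
    have hΩb : ∃ M : ℝ, ∀ y : E2, |F y - mean F| ≤ M := by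
      refine ⟨‖F‖ + |mean F|, fun y => ?_⟩
      exact (abs_sub _ _).trans (add_le_add (F.norm_coe_le_norm y) le_rfl)
    have hΩ0 : (∫ y in {y : E2 | 1 < ‖y‖ ∧ ‖y‖ < 2}, (F (‖y‖⁻¹ • y) - mean F)) = 0 :=
      (hOMG 1 le_rfl).2.2.2.2 F hFb hFm
    obtain ⟨C, hC⟩ := H (fun y => F y - mean F) hΩm hΩb hΩ0 bb hBMO.1 hBMO.2
    refine ⟨max C 0, le_max_right _ _, fun n => ?_⟩
    obtain ⟨hw1, hw2, hw3⟩ := hA2 (n + 1) (hm1 n)
    obtain ⟨hf1, hf2, -, -⟩ := hFFP (n + 1) (φ n) (hm1 n) (hφ n)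
    obtain ⟨M, hM⟩ := hΩb
    have h1 := hC (wt (n + 1)) (25 * ((n + 1 : ℕ) : ℝ) ^ 4)
      (loc_int _ fun x r hr => (hw3 x r hr).1) (loc_int _ fun x r hr => (hw3 x r hr).2.1)
      (ae_of_all _ hw2) (avg_bd hA2 (n + 1) (hm1 n)) (ff (n + 1) (φ n))
      (fun x => ∫ y, (bb x - bb y) * ((F (‖x - y‖⁻¹ • (x - y)) - mean F) / ‖x - y‖ ^ 2) *
        ff (n + 1) (φ n) y)
      hf1.continuous.measurable hf2 (hf2.exists_bound_of_continuous hf1.continuous)
      (hPV2 (n + 1) (φ n) (fun y => F y - mean F) M (hm1 n) (hφ n) hΩm hM)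
    have hN := hFN (n + 1) (φ n) (hm1 n) (hφ n)
    have hNN := NN_pos (n + 1) (hm1 n)
    have h25 : (0 : ℝ) ≤ (25 * ((n + 1 : ℕ) : ℝ) ^ 4) ^ 4 := by positivity
    refine hCS (n + 1) (φ n) F (max C 0 * (25 * ((n + 1 : ℕ) : ℝ) ^ 4) ^ 4 * NN (n + 1)) (hm1 n)
      (hφ n) (by have := le_max_right C 0; positivity) ?_
    refine h1.trans ?_
    refine (mul_le_mul' (ENNReal.ofReal_le_ofReal
      (mul_le_mul_of_nonneg_right (le_max_left C 0) h25)) hN).trans ?_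
    rw [← ENNReal.ofReal_mul (mul_nonneg (le_max_right C 0) h25)]
    exact le_rfl
  -- uniform boundedness
  set c : ℕ → ℝ := fun n =>
    ((25 * ((n + 1 : ℕ) : ℝ) ^ 4) ^ 2 * Real.sqrt (NN (n + 1)) * Real.sqrt (W n))⁻¹ with hc
  have hdpos : ∀ n : ℕ,
      0 < (25 * ((n + 1 : ℕ) : ℝ) ^ 4) ^ 2 * Real.sqrt (NN (n + 1)) * Real.sqrt (W n) := by
    intro n
    have h1 := Real.sqrt_pos.2 (NN_pos (n + 1) (hm1 n))
    have h2 := Real.sqrt_pos.2 (hWpos n)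
    have h3 : (0 : ℝ) < ((n + 1 : ℕ) : ℝ) := by positivity
    positivity
  obtain ⟨K, hK⟩ := banach_steinhaus (g := fun n => c n • Λ n) (by
    intro F
    obtain ⟨C, hC0, hC⟩ := key F
    refine ⟨Real.sqrt C, fun n => ?_⟩
    have h1 : ‖(c n • Λ n) F‖ = c n * |Lam (n + 1) (φ n) F| := by
      rw [smul_apply, norm_smul, hΛ, Real.norm_eq_abs, Real.norm_eq_abs,
        abs_of_pos (inv_pos.2 (hdpos n))]
    rw [h1]
    have h2 : Real.sqrt (C * (25 * ((n + 1 : ℕ) : ℝ) ^ 4) ^ 4 * NN (n + 1)) =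
        Real.sqrt C * (25 * ((n + 1 : ℕ) : ℝ) ^ 4) ^ 2 * Real.sqrt (NN (n + 1)) := by
      rw [Real.sqrt_mul (by positivity), Real.sqrt_mul hC0]
      have h3 : (25 * ((n + 1 : ℕ) : ℝ) ^ 4) ^ 4 = ((25 * ((n + 1 : ℕ) : ℝ) ^ 4) ^ 2) ^ 2 := by ring
      rw [h3, Real.sqrt_sq (by positivity)]
    have h3 := hC n
    rw [h2] at h3
    have h4 := mul_le_mul_of_nonneg_left h3 (inv_pos.2 (hdpos n)).le
    refine h4.trans (le_of_eq ?_)
    have h5 := (hdpos n).ne'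
    rw [inv_mul_eq_div, div_eq_iff h5]
    ring)
  -- the contradiction
  have hbig : ∀ n : ℕ, ((n + 1 : ℕ) : ℝ) ^ 2 ≤ 320000 * (4 * Real.exp 12) * K := by
    intro n
    obtain ⟨-, -, -, F, hF1, hF2⟩ := hPSI (n + 1) (hm1 n)
    have hFe : (F : E2 → ℝ) = Psi (n + 1) := funext hF1
    have h1 := hLLOW (n + 1) (φ n) (hm1 n) (hφ n)
    have h2 : c n * Lam (n + 1) (φ n) (Psi (n + 1)) ≤ K := by
      have h3 : (c n • Λ n) F = c n * Lam (n + 1) (φ n) (Psi (n + 1)) := by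
        rw [smul_apply, hΛ, hFe, smul_eq_mul]
      rw [← h3]
      refine (le_abs_self _).trans ?_
      rw [← Real.norm_eq_abs]
      refine ((c n • Λ n).le_opNorm F).trans ?_
      calc ‖c n • Λ n‖ * ‖F‖ ≤ ‖c n • Λ n‖ * 1 :=
            mul_le_mul_of_nonneg_left hF2 (c n • Λ n).opNorm_nonneg
        _ = ‖c n • Λ n‖ := mul_one _
        _ ≤ K := hK n
    have hNN := NN_pos (n + 1) (hm1 n)
    have hm0 : (0 : ℝ) < ((n + 1 : ℕ) : ℝ) := by positivity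
    set m : ℝ := ((n + 1 : ℕ) : ℝ) with hm
    have hr0 : r0 (n + 1) ^ 2 = 1 / (256 * m ^ 2) := by
      have h3 : r0 (n + 1) = 1 / (16 * m) := rfl
      rw [h3, div_pow, mul_pow, one_pow]
      norm_num
    have h4 : Lam (n + 1) (φ n) (Psi (n + 1)) ≤
        K * ((25 * m ^ 4) ^ 2 * Real.sqrt (NN (n + 1)) * Real.sqrt (W n)) := by
      have h5 := mul_le_mul_of_nonneg_right h2 (hdpos n).le
      have h6 : c n * Lam (n + 1) (φ n) (Psi (n + 1)) *
          ((25 * m ^ 4) ^ 2 * Real.sqrt (NN (n + 1)) * Real.sqrt (W n)) =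
          Lam (n + 1) (φ n) (Psi (n + 1)) := by
        have h7 : (25 * m ^ 4) ^ 2 * Real.sqrt (NN (n + 1)) * Real.sqrt (W n) ≠ 0 := (hdpos n).ne'
        have h8 : c n = ((25 * m ^ 4) ^ 2 * Real.sqrt (NN (n + 1)) * Real.sqrt (W n))⁻¹ := rfl
        rw [h8, inv_mul_eq_div, div_mul_cancel₀ _ h7]
      rw [h6] at h5
      exact h5
    have h5 : m ^ 4 * (r0 (n + 1) ^ 2 * m ^ 8 / 2) * W n ≤
        K * ((25 * m ^ 4) ^ 2 * Real.sqrt (NN (n + 1)) * Real.sqrt (W n)) := h1.trans h4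
    have hsW : 0 < Real.sqrt (W n) := Real.sqrt_pos.2 (hWpos n)
    have hsN : 0 < Real.sqrt (NN (n + 1)) := Real.sqrt_pos.2 hNN
    have h6 : m ^ 10 / 512 * (Real.sqrt (W n) * Real.sqrt (W n)) ≤
        K * ((25 * m ^ 4) ^ 2 * Real.sqrt (NN (n + 1)) * Real.sqrt (W n)) := by
      rw [Real.mul_self_sqrt (hWpos n).le]
      refine le_trans (le_of_eq ?_) h5
      rw [hr0]
      field_simp
      ring
    have h7 : m ^ 10 / 512 * Real.sqrt (W n) ≤
        K * ((25 * m ^ 4) ^ 2 * Real.sqrt (NN (n + 1))) := by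
      have h8 : m ^ 10 / 512 * Real.sqrt (W n) * Real.sqrt (W n) ≤
          K * ((25 * m ^ 4) ^ 2 * Real.sqrt (NN (n + 1))) * Real.sqrt (W n) := by
        linarith [h6]
      exact le_of_mul_le_mul_right h8 hsW
    have h8 : Real.exp (-12) / 4 * Real.sqrt (NN (n + 1)) ≤ Real.sqrt (W n) := by
      apply Real.le_sqrt_of_sq_le
      rw [mul_pow, Real.sq_sqrt hNN.le]
      refine le_trans ?_ (hWlow n)
      refine mul_le_mul_of_nonneg_right ?_ hNN.le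
      rw [div_pow, ← Real.exp_nat_mul]
      have h9 : ((2 : ℕ) : ℝ) * -12 = -24 := by norm_num
      rw [h9]
      have h10 := Real.exp_pos (-24)
      rw [div_le_div_iff₀ (by norm_num) (by norm_num)]
      nlinarith
    have h9 : m ^ 10 / 512 * (Real.exp (-12) / 4 * Real.sqrt (NN (n + 1))) ≤
        K * ((25 * m ^ 4) ^ 2 * Real.sqrt (NN (n + 1))) :=
      (mul_le_mul_of_nonneg_left h8 (by positivity)).trans h7
    have h10 : m ^ 10 / 512 * (Real.exp (-12) / 4) ≤ K * (25 * m ^ 4) ^ 2 := by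
      have h11 : m ^ 10 / 512 * (Real.exp (-12) / 4) * Real.sqrt (NN (n + 1)) ≤
          K * (25 * m ^ 4) ^ 2 * Real.sqrt (NN (n + 1)) := by linarith [h9]
      exact le_of_mul_le_mul_right h11 hsN
    have h11 : m ^ 2 * Real.exp (-12) * (m ^ 8) ≤ 320000 * 4 * K * (m ^ 8) := by
      have h12 : m ^ 10 / 512 * (Real.exp (-12) / 4) = m ^ 2 * Real.exp (-12) * m ^ 8 / 2048 := by
        ring
      have h13 : K * (25 * m ^ 4) ^ 2 = 625 * K * m ^ 8 := by ring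
      rw [h12, h13] at h10
      linarith
    have h12 : m ^ 2 * Real.exp (-12) ≤ 320000 * 4 * K :=
      le_of_mul_le_mul_right h11 (by positivity)
    have h13 : Real.exp (-12) * Real.exp 12 = 1 := by
      rw [← Real.exp_add]
      norm_num
    have h14 := mul_le_mul_of_nonneg_right h12 (Real.exp_pos 12).le
    calc m ^ 2 = m ^ 2 * (Real.exp (-12) * Real.exp 12) := by rw [h13, mul_one]
      _ = m ^ 2 * Real.exp (-12) * Real.exp 12 := by ring
      _ ≤ 320000 * 4 * K * Real.exp 12 := h14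
      _ = 320000 * (4 * Real.exp 12) * K := by ring
  obtain ⟨n, hn⟩ := exists_nat_gt (320000 * (4 * Real.exp 12) * K)
  have h1 := hbig n
  have h2 : ((n + 1 : ℕ) : ℝ) = n + 1 := by push_cast; ring
  rw [h2] at h1
  have h3 : (0 : ℝ) ≤ n := Nat.cast_nonneg n
  nlinarith

end Pool.Agent.Run7.h714.RSI
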